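import Pool.Agent.T2H47.KL.Fin

/-!
# Local and isomorphic forms
-/

set_option autoImplicit false

namespace Pool.Agent.T2H47.KL

open MeasureTheory Set Filter Topology
open scoped ENNReal InnerProductSpace Pointwise
open Pool.Agent.W695.KH (Eu)

variable {n : ℕ}

/-- the inequality for sets of measure one half -/
def Hf (c : ℝ) (L : Set (Eu (Fin n))) : Prop :=
  ∀ μ : Measure (Eu (Fin n)), μ = (volume L)⁻¹ • volume.restrict L → ∀ t : ℝ≥0∞,
    (∀ (u : Eu (Fin n)) (b : ℝ), u ≠ 0 →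
      t * min (μ {x | ⟪u, x⟫_ℝ ≤ b}) (1 - μ {x | ⟪u, x⟫_ℝ ≤ b}) ≤
        liminf (fun ε : ℝ => (μ (Metric.thickening ε {x | ⟪u, x⟫_ℝ ≤ b}) -
          μ {x | ⟪u, x⟫_ℝ ≤ b}) / ENNReal.ofReal ε) (𝓝[>] 0)) →
    ∀ S : Set (Eu (Fin n)), μ S = 1 / 2 →
      ENNReal.ofReal c * t ≤
        liminf (fun ε : ℝ => (μ (Metric.thickening ε S) - μ S) / ENNReal.ofReal ε) (𝓝[>] 0)

theorem Hf.mono {c c' : ℝ} (h : c' ≤ c) {L : Set (Eu (Fin n))} (hL : Hf c L) : Hf c' L :=
  fun μ hμ t ht S hS => le_trans (by gcongr) (hL μ hμ t ht S hS)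

/-- the squared distance is strongly convex -/
theorem strong_dist {K : Set (Eu (Fin n))} (hK : Convex ℝ K) (x₀ : Eu (Fin n)) :
    StrongConvexOn K 2 fun x => ‖x - x₀‖ ^ 2 := by
  rw [strongConvexOn_iff_convex]
  have e : (fun x : Eu (Fin n) => ‖x - x₀‖ ^ 2 - 2 / (2 : ℝ) * ‖x‖ ^ 2) =
      fun x => (-2 : ℝ) * ⟪x₀, x⟫_ℝ + ‖x₀‖ ^ 2 := by
    funext x
    rw [@norm_sub_sq_real, real_inner_comm]
    ring
  rw [e]
  refine ConvexOn.add_const (ConvexOn.subset ?_ (subset_univ _) hK) _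
  have h := ((-2 : ℝ) • (innerSL ℝ x₀ : Eu (Fin n) →L[ℝ] ℝ).toLinearMap).convexOn
    (convex_univ (𝕜 := ℝ) (E := Eu (Fin n)))
  exact h

theorem nonempty_of_vol {L : Set (Eu (Fin n))} (hL : Convex ℝ L) (hLc : IsClosed L)
    (hpos : 0 < volume L) : (interior L).Nonempty := by
  by_contra h
  rw [not_nonempty_iff_eq_empty] at h
  have h1 := hL.addHaar_frontier volume
  rw [hLc.frontier_eq, h, sdiff_empty] at h1
  exact hpos.ne' h1

theorem ball_vol (x : Eu (Fin n)) {r : ℝ} (hr : 0 ≤ r) :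
    volume (Metric.closedBall x r) = ENNReal.ofReal (r ^ n) * volume (Metric.ball (0 : Eu (Fin n)) 1) := by
  rw [Measure.addHaar_closedBall _ _ hr, finrank_euclideanSpace_fin]

theorem ball_vol' {r : ℝ} (hr : 0 < r) :
    volume (Metric.ball (0 : Eu (Fin n)) r) =
      ENNReal.ofReal (r ^ n) * volume (Metric.ball (0 : Eu (Fin n)) 1) := by
  rw [Measure.addHaar_ball_of_pos _ _ hr, finrank_euclideanSpace_fin]

/-- **Local form.** -/
theorem local_form : ∃ c : ℝ, 0 < c ∧ ∀ (n : ℕ), 0 < n → ∀ (K : Set (Eu (Fin n))), IsClosed K →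
    Convex ℝ K → ∀ x₀ ∈ K, ∀ R δ ρ : ℝ, 0 < δ → 0 < ρ → 2 * ρ ≤ δ * R →
    ENNReal.ofReal (δ ^ n) * volume (Metric.ball (0 : Eu (Fin n)) R) ≤
      volume (K ∩ Metric.closedBall x₀ R) →
    Hf (c * (δ * Real.sqrt δ)) (K ∩ Metric.closedBall x₀ ρ) := by
  obtain ⟨c, hc, H⟩ := kls_lev
  refine ⟨c / 2, by positivity, ?_⟩
  intro n hn K hKcl hK x₀ hx₀ R δ ρ hδ hρ hρR hvol
  have hR : 0 < R := by
    by_contra h
    rw [not_lt] at h
    nlinarith
  set w := volume (Metric.ball (0 : Eu (Fin n)) 1) with hw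
  have hw0 : w ≠ 0 := (Metric.measure_ball_pos volume _ one_pos).ne'
  have hwt : w ≠ ⊤ := measure_ball_lt_top.ne
  set wr : ℝ := w.toReal with hwr
  have hwr0 : 0 < wr := ENNReal.toReal_pos hw0 hwt
  have hwe : w = ENNReal.ofReal wr := (ENNReal.ofReal_toReal hwt).symm
  have hδ1 : δ ≤ 1 := by
    have h1 : volume (K ∩ Metric.closedBall x₀ R) ≤ ENNReal.ofReal (R ^ n) * w :=
      (measure_mono inter_subset_right).trans (ball_vol x₀ hR.le).le
    rw [ball_vol' hR] at hvol
    have h2 := hvol.trans h1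
    rw [← hw, hwe, ← ENNReal.ofReal_mul (by positivity), ← ENNReal.ofReal_mul (by positivity),
      ENNReal.ofReal_le_ofReal_iff (by positivity)] at h2
    have h3 : 0 < R ^ n * wr := by positivity
    have h4 : δ ^ n ≤ 1 := by
      by_contra h
      rw [not_le] at h
      nlinarith
    by_contra h
    rw [not_le] at h
    exact absurd h4 (not_le.2 (one_lt_pow₀ h hn.ne'))
  have hρR2 : 2 * ρ ≤ R := by nlinarith
  set Kc : Set (Eu (Fin n)) := K ∩ Metric.closedBall x₀ R with hKc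
  have hKcc : IsCompact Kc := by
    rw [hKc, inter_comm]
    exact (isCompact_closedBall x₀ R).inter_right hKcl
  have hKcv : Convex ℝ Kc := hK.inter (convex_closedBall x₀ R)
  set Φ : Eu (Fin n) → ℝ := fun x => ‖x - x₀‖ ^ 2 with hΦ
  have hΦc : ContinuousOn Φ Kc := by
    rw [hΦ]; fun_prop
  have hlev : ∀ a : ℝ, 0 < a → a ≤ R → lev Kc Φ (a ^ 2) = K ∩ Metric.closedBall x₀ a := by
    intro a ha haR
    ext x
    constructor
    · rintro ⟨hx1, hx2⟩
      refine ⟨hx1.1, ?_⟩
      rw [Metric.mem_closedBall, dist_eq_norm]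
      exact (sq_le_sq₀ (norm_nonneg _) ha.le).1 hx2
    · rintro ⟨hx1, hx2⟩
      rw [Metric.mem_closedBall, dist_eq_norm] at hx2
      refine ⟨⟨hx1, ?_⟩, pow_le_pow_left₀ (norm_nonneg _) hx2 2⟩
      rw [Metric.mem_closedBall, dist_eq_norm]
      exact hx2.trans haR
  have hL1 := hlev ρ hρ (by linarith)
  have hL2 := hlev (3 / 2 * ρ) (by positivity) (by linarith)
  set A := K ∩ Metric.closedBall x₀ ρ with hA
  set C := K ∩ Metric.closedBall x₀ (3 / 2 * ρ) with hC
  have hAcl : IsClosed A := hKcl.inter Metric.isClosed_closedBall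
  have hAcv : Convex ℝ A := hK.inter (convex_closedBall _ _)
  have hAfin : volume A ≠ ⊤ :=
    ((measure_mono inter_subset_right).trans_lt
      (isCompact_closedBall x₀ ρ).measure_lt_top).ne
  -- the volume of `A`
  have hAvol : ENNReal.ofReal ((δ * ρ) ^ n) * w ≤ volume A := by
    have h1 : AffineMap.homothety x₀ (ρ / R) '' Kc ⊆ A := by
      rintro _ ⟨x, hx, rfl⟩
      have hle : ρ / R ≤ 1 := by rw [div_le_one hR]; linarith
      refine ⟨?_, ?_⟩
      · rw [AffineMap.homothety_apply, vsub_eq_sub, vadd_eq_add]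
        have := hK hx₀ hx.1 (a := 1 - ρ / R) (b := ρ / R) (by linarith) (by positivity) (by ring)
        have e : (1 - ρ / R) • x₀ + (ρ / R) • x = (ρ / R) • (x - x₀) + x₀ := by
          rw [sub_smul, one_smul, smul_sub]; abel
        rwa [e] at this
      · rw [AffineMap.homothety_apply, vsub_eq_sub, vadd_eq_add, Metric.mem_closedBall,
          dist_eq_norm, add_sub_cancel_right, norm_smul, Real.norm_eq_abs,
          abs_of_pos (by positivity)]
        have h2 := hx.2
        rw [Metric.mem_closedBall, dist_eq_norm] at h2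
        calc ρ / R * ‖x - x₀‖ ≤ ρ / R * R := by gcongr
          _ = ρ := by field_simp
    have h2 := measure_mono (μ := volume) h1
    rw [Measure.addHaar_image_homothety, finrank_euclideanSpace_fin,
      abs_of_pos (by positivity)] at h2
    refine le_trans ?_ h2
    refine le_trans (le_of_eq ?_) (mul_le_mul_right hvol _)
    rw [ball_vol' hR, ← hw, ← mul_assoc, ← mul_assoc, ← ENNReal.ofReal_mul (by positivity),
      ← ENNReal.ofReal_mul (by positivity)]
    congr 2
    rw [← mul_pow, ← mul_pow]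
    congr 1
    field_simp
  have hApos : 0 < volume A := lt_of_lt_of_le (by
    rw [ENNReal.mul_pos_iff]
    exact ⟨by simp; positivity, pos_iff_ne_zero.2 hw0⟩) hAvol
  -- growth
  have hgr : ENNReal.ofReal ((1 + δ / 4) ^ n) * volume A ≤ volume C := by
    set a : ℝ := ((volume A).toReal) ^ (1 / (n : ℝ)) with ha
    set v : ℝ := wr ^ (1 / (n : ℝ)) with hv
    have hnr : (n : ℝ) ≠ 0 := by exact_mod_cast hn.ne'
    have hv0 : 0 < v := Real.rpow_pos_of_pos hwr0 _
    have ha0 : 0 < a := Real.rpow_pos_of_pos (ENNReal.toReal_pos hApos.ne' hAfin) _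
    have hvn : v ^ n = wr := by
      rw [hv, ← Real.rpow_natCast, ← Real.rpow_mul hwr0.le, one_div, inv_mul_cancel₀ hnr,
        Real.rpow_one]
    have han : a ^ n = (volume A).toReal := by
      rw [ha, ← Real.rpow_natCast, ← Real.rpow_mul ENNReal.toReal_nonneg, one_div,
        inv_mul_cancel₀ hnr, Real.rpow_one]
    have hae : ENNReal.ofReal (a ^ n) = volume A := by rw [han, ENNReal.ofReal_toReal hAfin]
    set b : ℝ := δ * v * R with hb
    have hb0 : 0 < b := by positivity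
    have hbe : ENNReal.ofReal (b ^ n) ≤ volume Kc := by
      refine le_trans (le_of_eq ?_) hvol
      rw [ball_vol' hR, ← hw, hwe, ← hvn, ← ENNReal.ofReal_mul (by positivity),
        ← ENNReal.ofReal_mul (by positivity), hb]
      congr 1
      ring
    have hav : a ≤ v * ρ := by
      have h1 : volume A ≤ ENNReal.ofReal ((v * ρ) ^ n) := by
        refine (measure_mono inter_subset_right).trans (le_of_eq ?_)
        rw [ball_vol x₀ hρ.le, ← hw, hwe, ← hvn, ← ENNReal.ofReal_mul (by positivity)]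
        congr 1
        ring
      rw [← hae, ENNReal.ofReal_le_ofReal_iff (by positivity)] at h1
      exact le_of_pow_le_pow_left₀ hn.ne' (by positivity) h1
    set l : ℝ := (ρ / 2) / (R - ρ) with hl
    have hRρ : 0 < R - ρ := by linarith
    have hl0 : 0 < l := by positivity
    have hl1 : l < 1 := by
      rw [hl, div_lt_one hRρ]; linarith
    have hlR : l * (R - ρ) = ρ / 2 := by rw [hl]; field_simp
    have hC1 := bm_pow (n := n) l a b hl0 hl1 ha0 hb0 (A := A) (B := Kc) (C := C)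
      hAcl.measurableSet hKcc.measurableSet
      (hKcl.inter Metric.isClosed_closedBall).measurableSet (by
        intro x hx y hy
        refine ⟨hK hx.1 hy.1 (by linarith) hl0.le (by ring), ?_⟩
        have hx2 := hx.2
        have hy2 := hy.2
        rw [Metric.mem_closedBall, dist_eq_norm] at hx2 hy2 ⊢
        have e : (1 - l) • x + l • y - x₀ = (1 - l) • (x - x₀) + l • (y - x₀) := by
          rw [smul_sub, smul_sub, sub_smul 1 l x₀, one_smul]; abel
        rw [e]
        refine (norm_add_le _ _).trans ?_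
        rw [norm_smul, norm_smul, Real.norm_eq_abs, Real.norm_eq_abs,
          abs_of_pos (by linarith : 0 < 1 - l), abs_of_pos hl0]
        calc (1 - l) * ‖x - x₀‖ + l * ‖y - x₀‖ ≤ (1 - l) * ρ + l * R :=
              add_le_add (mul_le_mul_of_nonneg_left hx2 (by linarith))
                (mul_le_mul_of_nonneg_left hy2 hl0.le)
          _ = ρ + l * (R - ρ) := by ring
          _ = 3 / 2 * ρ := by rw [hlR]; ring) hae.le hbe
    refine le_trans ?_ hC1
    rw [← hae, ← ENNReal.ofReal_mul (by positivity), ← mul_pow]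
    refine ENNReal.ofReal_le_ofReal (pow_le_pow_left₀ (by positivity) ?_ n)
    -- `δ a / 4 ≤ l (b - a)`
    have h1 : a ≤ b / 2 := by
      calc a ≤ v * ρ := hav
        _ ≤ v * (δ * R / 2) := by gcongr; linarith
        _ = b / 2 := by rw [hb]; ring
    have h2 : ρ / (2 * R) ≤ l := by
      rw [hl, div_div]
      exact div_le_div_of_nonneg_left hρ.le (by positivity) (by linarith)
    have h3 : δ * a / 4 ≤ l * (b - a) := by
      calc δ * a / 4 ≤ δ * (v * ρ) / 4 := by gcongr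
        _ = ρ / (2 * R) * (b / 2) := by rw [hb]; field_simp; ring
        _ ≤ l * (b - a) := mul_le_mul h2 (by linarith) (by positivity) hl0.le
    linarith
  have hint := nonempty_of_vol hAcv hAcl hApos
  intro μ hμ t ht S hS
  have key := H n hn Kc hKcc Φ hΦc 2 two_pos (strong_dist hKcv x₀) (ρ ^ 2) ((3 / 2 * ρ) ^ 2)
    (δ / 4) (δ * ρ) (by nlinarith [sq_nonneg ρ, hρ]) (by positivity) (by positivity) (by
      rw [hL1, hL2]; exact hgr) (by
      rw [hL1, ball_vol' (by positivity)]; exact hAvol) (by rw [hL1]; exact hint) μ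
      (by rw [hL1]; exact hμ) t ht S hS
  refine le_trans ?_ key
  refine mul_le_mul' (ENNReal.ofReal_le_ofReal ?_) le_rfl
  have e1 : 2 * (δ / 4) / ((3 / 2 * ρ) ^ 2 - ρ ^ 2) = δ * (2 / 5) / ρ ^ 2 := by
    field_simp
    ring
  rw [e1, Real.sqrt_div' _ (by positivity), Real.sqrt_sq hρ.le, Real.sqrt_mul hδ.le]
  have h25 : (1 : ℝ) / 2 ≤ Real.sqrt (2 / 5) := by
    apply Real.le_sqrt_of_sq_le
    norm_num
  have e2 : c * (δ * ρ * (Real.sqrt δ * Real.sqrt (2 / 5) / ρ)) =
      c * (δ * Real.sqrt δ) * Real.sqrt (2 / 5) := by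
    field_simp
  rw [e2]
  have : 0 ≤ c * (δ * Real.sqrt δ) := by positivity
  nlinarith

/-- the rounding of a body -/
noncomputable def rnd (K : Set (Eu (Fin n))) (R ε : ℝ) : Set (Eu (Fin n)) :=
  {x | gauge K x ^ 2 + ε / R ^ 2 * ‖x‖ ^ 2 ≤ 1}

/-- **Isomorphic form.** -/
theorem iso_form : ∃ c : ℝ, 0 < c ∧ ∀ (n : ℕ), 0 < n → ∀ (K : Set (Eu (Fin n))), IsCompact K →
    Convex ℝ K → (0 : Eu (Fin n)) ∈ interior K → ∀ R θ ε : ℝ, K ⊆ Metric.closedBall 0 R → 0 < θ →
    0 < ε → ε ≤ 1 →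
    ENNReal.ofReal (θ ^ n) * volume (Metric.ball (0 : Eu (Fin n)) R) ≤ volume K →
    IsCompact (rnd K R ε) ∧ Convex ℝ (rnd K R ε) ∧ rnd K R ε ⊆ K ∧
      K ⊆ Real.sqrt (1 + ε) • rnd K R ε ∧ Hf (c * θ * Real.sqrt ε) (rnd K R ε) := by
  obtain ⟨c, hc, H⟩ := kls_lev
  refine ⟨c / 4, by positivity, ?_⟩
  intro n hn K hKc hK h0 R θ ε hKR hθ hε hε1 hvol
  have hnh : K ∈ 𝓝 (0 : Eu (Fin n)) := mem_interior_iff_mem_nhds.1 h0
  have hcl : closure K = K := hKc.isClosed.closure_eq
  have hg1 : ∀ x, gauge K x ≤ 1 ↔ x ∈ K := fun x => by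
    rw [gauge_le_one_iff_mem_closure hK hnh, hcl]
  have hgc : Continuous (gauge K) := continuous_gauge hK hnh
  have hg0 : ∀ x, 0 ≤ gauge K x := fun x => gauge_nonneg x
  -- the radius is positive
  have hR : 0 < R := by
    obtain ⟨η, hη, hb⟩ := Metric.mem_nhds_iff.1 hnh
    have h1 : (EuclideanSpace.single (⟨0, hn⟩ : Fin n) (η / 2) : Eu (Fin n)) ∈ K := by
      apply hb
      rw [mem_ball_zero_iff, PiLp.norm_single, Real.norm_eq_abs,
        abs_of_pos (by positivity)]
      linarith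
    have h2 := hKR h1
    rw [mem_closedBall_zero_iff, PiLp.norm_single, Real.norm_eq_abs,
      abs_of_pos (by positivity)] at h2
    linarith
  set κ : ℝ := 2 * (ε / R ^ 2) with hκ
  have hκ0 : 0 < κ := by positivity
  set Φ : Eu (Fin n) → ℝ := fun x => gauge K x ^ 2 + ε / R ^ 2 * ‖x‖ ^ 2 with hΦ
  have hΦc : Continuous Φ := by
    rw [hΦ]; fun_prop
  have hgs : ∀ (a : ℝ), 0 ≤ a → ∀ x, gauge K (a • x) = a * gauge K x := fun a ha x => by
    rw [gauge_smul_of_nonneg ha, smul_eq_mul]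
  have hΦs : ∀ (a : ℝ), 0 ≤ a → ∀ x, Φ (a • x) = a ^ 2 * Φ x := by
    intro a ha x
    simp only [hΦ]
    rw [hgs a ha, norm_smul, Real.norm_eq_abs, abs_of_nonneg ha]
    ring
  have hgcv : ConvexOn ℝ univ (gauge K) := by
    refine ⟨convex_univ, fun x _ y _ a b ha hb _ => ?_⟩
    refine (gauge_add_le hK (absorbent_nhds_zero hnh) _ _).trans ?_
    rw [hgs a ha, hgs b hb, smul_eq_mul, smul_eq_mul]
  have hst : ∀ D : Set (Eu (Fin n)), Convex ℝ D → StrongConvexOn D κ Φ := by
    intro D hD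
    rw [strongConvexOn_iff_convex]
    have e : (fun x : Eu (Fin n) => Φ x - κ / (2 : ℝ) * ‖x‖ ^ 2) = fun x => gauge K x ^ 2 := by
      funext x
      simp only [hΦ, hκ]
      ring
    rw [e]
    exact (ConvexOn.pow hgcv (fun x _ => hg0 x) 2).subset (subset_univ _) hD
  set D : Set (Eu (Fin n)) := Metric.closedBall 0 (2 * R) with hD
  have hDc : IsCompact D := isCompact_closedBall _ _
  have hDv : Convex ℝ D := convex_closedBall _ _
  have hnl : ∀ x : Eu (Fin n), ‖x‖ ≤ R * gauge K x := by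
    intro x
    rcases eq_or_lt_of_le (hg0 x) with h | h
    · -- gauge zero means x = 0
      have h2 : ∀ a : ℝ, 0 ≤ a → ‖a • x‖ ≤ R := by
        intro a ha
        have : a • x ∈ K := (hg1 _).1 (by rw [hgs a ha, ← h, mul_zero]; exact zero_le_one)
        have := hKR this
        rwa [mem_closedBall_zero_iff] at this
      by_contra hcon
      rw [not_le, ← h, mul_zero] at hcon
      have h3 := h2 (2 * R / ‖x‖) (by positivity)
      rw [norm_smul, Real.norm_eq_abs, abs_of_pos (by positivity), div_mul_cancel₀ _ hcon.ne'] at h3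
      linarith
    · have h1 : (gauge K x)⁻¹ • x ∈ K := (hg1 _).1 (by
        rw [hgs _ (by positivity), inv_mul_cancel₀ h.ne'])
      have h2 := hKR h1
      rw [mem_closedBall_zero_iff, norm_smul, norm_inv, Real.norm_eq_abs, abs_of_pos h,
        inv_mul_le_iff₀ h] at h2
      linarith
  have hlev : ∀ a : ℝ, 0 ≤ a → a ≤ 2 → lev D Φ (a ^ 2) = {x | Φ x ≤ a ^ 2} := by
    intro a ha ha2
    ext x
    constructor
    · intro hx; exact hx.2
    · intro hx
      have hx' : Φ x ≤ a ^ 2 := hx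
      refine ⟨?_, hx⟩
      rw [hD, mem_closedBall_zero_iff]
      have h1 : gauge K x ^ 2 ≤ a ^ 2 := by
        have : 0 ≤ ε / R ^ 2 * ‖x‖ ^ 2 := by positivity
        have h3 : Φ x = gauge K x ^ 2 + ε / R ^ 2 * ‖x‖ ^ 2 := rfl
        linarith
      have h2 : gauge K x ≤ a := (sq_le_sq₀ (hg0 x) ha).1 h1
      calc ‖x‖ ≤ R * gauge K x := hnl x
        _ ≤ R * 2 := by gcongr; linarith
        _ = 2 * R := by ring
  have hT1 : lev D Φ 1 = rnd K R ε := by
    have := hlev 1 zero_le_one (by norm_num)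
    rw [one_pow] at this
    rw [this]
    rfl
  have hT4 : lev D Φ 4 = (2 : ℝ) • rnd K R ε := by
    have := hlev 2 (by norm_num) le_rfl
    norm_num at this
    rw [this]
    ext x
    rw [Set.mem_smul_set_iff_inv_smul_mem₀ two_ne_zero]
    show Φ x ≤ 4 ↔ Φ ((2 : ℝ)⁻¹ • x) ≤ 1
    rw [hΦs _ (by norm_num)]
    constructor <;> intro h <;> nlinarith
  have hTc : IsCompact (rnd K R ε) := by
    rw [← hT1]; exact lev_compact hDc hΦc.continuousOn 1
  have hTv : Convex ℝ (rnd K R ε) := by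
    rw [← hT1]
    exact lev_convex ((hst D hDv).strictConvexOn hκ0).convexOn 1
  have hTK : rnd K R ε ⊆ K := by
    intro x hx
    have hx' : gauge K x ^ 2 + ε / R ^ 2 * ‖x‖ ^ 2 ≤ 1 := hx
    apply (hg1 x).1
    have : 0 ≤ ε / R ^ 2 * ‖x‖ ^ 2 := by positivity
    have h1 : gauge K x ^ 2 ≤ 1 ^ 2 := by linarith
    exact (sq_le_sq₀ (hg0 x) zero_le_one).1 h1
  have hΦK : ∀ x ∈ K, Φ x ≤ 1 + ε := by
    intro x hx
    have h1 := (hg1 x).2 hx
    have h2 := hKR hx
    rw [mem_closedBall_zero_iff] at h2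
    have h3 : gauge K x ^ 2 ≤ 1 := by nlinarith [hg0 x]
    have h4 : ε / R ^ 2 * ‖x‖ ^ 2 ≤ ε := by
      calc ε / R ^ 2 * ‖x‖ ^ 2 ≤ ε / R ^ 2 * R ^ 2 := by gcongr
        _ = ε := by field_simp
    show gauge K x ^ 2 + ε / R ^ 2 * ‖x‖ ^ 2 ≤ 1 + ε
    linarith
  have hKT : K ⊆ Real.sqrt (1 + ε) • rnd K R ε := by
    intro x hx
    have hs : 0 < Real.sqrt (1 + ε) := by positivity
    rw [Set.mem_smul_set_iff_inv_smul_mem₀ hs.ne']
    show Φ ((Real.sqrt (1 + ε))⁻¹ • x) ≤ 1
    rw [hΦs _ (by positivity), inv_pow, Real.sq_sqrt (by positivity),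
      inv_mul_le_iff₀ (by positivity), mul_one]
    exact hΦK x hx
  refine ⟨hTc, hTv, hTK, hKT, ?_⟩
  -- volume
  have hhalf : (1 / 2 : ℝ) • K ⊆ rnd K R ε := by
    rintro _ ⟨x, hx, rfl⟩
    show Φ ((1 / 2 : ℝ) • x) ≤ 1
    rw [hΦs _ (by norm_num)]
    have := hΦK x hx
    nlinarith
  have hTvol : volume (Metric.ball (0 : Eu (Fin n)) (θ * R / 2)) ≤ volume (rnd K R ε) := by
    have h1 := measure_mono (μ := volume) hhalf
    rw [Measure.addHaar_smul_of_nonneg _ (by norm_num), finrank_euclideanSpace_fin] at h1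
    refine le_trans (le_of_eq ?_) ((mul_le_mul_right hvol _).trans h1)
    rw [ball_vol' (by positivity), ball_vol' hR, ← mul_assoc, ← mul_assoc,
      ← ENNReal.ofReal_mul (by positivity), ← ENNReal.ofReal_mul (by positivity)]
    congr 2
    rw [← mul_pow, ← mul_pow]
    congr 1
    ring
  have hpos : 0 < volume (rnd K R ε) :=
    lt_of_lt_of_le (Metric.measure_ball_pos volume _ (by positivity)) hTvol
  have hint := nonempty_of_vol hTv hTc.isClosed hpos
  intro μ hμ t ht S hS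
  have key := H n hn D hDc Φ hΦc.continuousOn κ hκ0 (hst D hDv) 1 4 1 (θ * R / 2) (by norm_num)
    one_pos (by positivity) (by
      rw [hT1, hT4, Measure.addHaar_smul_of_nonneg _ (by norm_num), finrank_euclideanSpace_fin]
      norm_num) (by rw [hT1]; exact hTvol) (by rw [hT1]; exact hint) μ
      (by rw [hT1]; exact hμ) t ht S hS
  refine le_trans ?_ key
  refine mul_le_mul' (ENNReal.ofReal_le_ofReal ?_) le_rfl
  have e1 : κ * 1 / (4 - 1) = ε * (2 / 3) / R ^ 2 := by
    rw [hκ]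
    ring
  rw [e1, Real.sqrt_div' _ (by positivity), Real.sqrt_sq hR.le, Real.sqrt_mul hε.le]
  have h25 : (1 : ℝ) / 2 ≤ Real.sqrt (2 / 3) := by
    apply Real.le_sqrt_of_sq_le
    norm_num
  have e2 : c * (θ * R / 2 * (Real.sqrt ε * Real.sqrt (2 / 3) / R)) =
      c * θ * Real.sqrt ε * Real.sqrt (2 / 3) / 2 := by
    field_simp
  rw [e2]
  have : 0 ≤ c * θ * Real.sqrt ε := by positivity
  nlinarith

end Pool.Agent.T2H47.KL
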