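import Pool.Agent.H212R2.KLS.T1
import Pool.Agent.W695.KH.Defs

/-!
# The Brunn-Minkowski inequality and the distance between subsets of level sets
-/

set_option autoImplicit false

namespace Pool.Agent.T2H47.KL

open MeasureTheory Set Filter Topology
open scoped ENNReal InnerProductSpace Pointwise
open Pool.Agent.W695.KH (Eu)

variable {n : ℕ}

theorem pl_set (t : ℝ) (ht0 : 0 < t) (ht1 : t < 1) {A B C : Set (Eu (Fin n))}
    (hA : MeasurableSet A) (hB : MeasurableSet B) (hC : MeasurableSet C)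
    (h : ∀ x ∈ A, ∀ y ∈ B, (1 - t) • x + t • y ∈ C) :
    (volume A) ^ (1 - t) * (volume B) ^ t ≤ volume C := by
  have hPL := Pool.Agent.H212R2.KLS.PL (volume : Measure (Eu (Fin n))) t ht0 ht1 (A.indicator 1)
    (B.indicator 1) (C.indicator 1) (measurable_one.indicator hA)
    (measurable_one.indicator hB) (measurable_one.indicator hC) ?_
  · rwa [lintegral_indicator_one hA, lintegral_indicator_one hB, lintegral_indicator_one hC] at hPL
  · intro x y
    by_cases hx : x ∈ A
    · by_cases hy : y ∈ B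
      · rw [indicator_of_mem hx, indicator_of_mem hy, indicator_of_mem (h x hx y hy)]
        simp
      · rw [indicator_of_notMem hy, ENNReal.zero_rpow_of_pos ht0, mul_zero]
        exact zero_le
    · rw [indicator_of_notMem hx, ENNReal.zero_rpow_of_pos (by linarith), zero_mul]
      exact zero_le

theorem bm_min {A B C : Set (Eu (Fin n))} (hA : MeasurableSet A) (hB : MeasurableSet B)
    (hC : MeasurableSet C) (h : ∀ x ∈ A, ∀ y ∈ B, (1 / 2 : ℝ) • x + (1 / 2 : ℝ) • y ∈ C) :
    min (volume A) (volume B) ≤ volume C := by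
  have h1 := pl_set (1 / 2) (by norm_num) (by norm_num) hA hB hC (by
    intro x hx y hy
    have := h x hx y hy
    norm_num at this ⊢
    exact this)
  refine le_trans ?_ h1
  set v := min (volume A) (volume B) with hv
  rcases eq_or_ne v 0 with h0 | h0
  · rw [h0]; exact zero_le
  by_cases hvt : v = ⊤
  · have hAt : volume A = ⊤ := by
      rw [hv] at hvt; exact top_le_iff.1 (hvt ▸ min_le_left _ _)
    have hBt : volume B = ⊤ := by
      rw [hv] at hvt; exact top_le_iff.1 (hvt ▸ min_le_right _ _)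
    rw [hAt, hBt, ENNReal.top_rpow_of_pos (by norm_num), ENNReal.top_rpow_of_pos (by norm_num)]
    simp
  · calc v = v ^ (1 - 1 / 2 : ℝ) * v ^ (1 / 2 : ℝ) := by
          rw [← ENNReal.rpow_add _ _ h0 hvt]
          norm_num
      _ ≤ (volume A) ^ (1 - 1 / 2 : ℝ) * (volume B) ^ (1 / 2 : ℝ) := by
          gcongr
          · exact min_le_left _ _
          · exact min_le_right _ _

/-- Brunn-Minkowski: sets with volumes at least `a ^ n`, `b ^ n`. -/
theorem bm_pow (l a b : ℝ) (hl0 : 0 < l) (hl1 : l < 1) (ha : 0 < a) (hb : 0 < b)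
    {A B C : Set (Eu (Fin n))} (hA : MeasurableSet A) (hB : MeasurableSet B)
    (hC : MeasurableSet C) (h : ∀ x ∈ A, ∀ y ∈ B, (1 - l) • x + l • y ∈ C)
    (hvA : ENNReal.ofReal (a ^ n) ≤ volume A) (hvB : ENNReal.ofReal (b ^ n) ≤ volume B) :
    ENNReal.ofReal (((1 - l) * a + l * b) ^ n) ≤ volume C := by
  set M := (1 - l) * a + l * b with hM
  have hM0 : 0 < M := by
    have : 0 < 1 - l := by linarith
    positivity
  set t := l * b / M with ht
  have ht0 : 0 < t := by positivity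
  have ht1 : t < 1 := by
    rw [ht, div_lt_one hM0, hM]
    have : 0 < (1 - l) * a := mul_pos (by linarith) ha
    linarith
  have e1 : 1 - t = (1 - l) * a / M := by
    rw [ht, eq_div_iff hM0.ne', sub_mul, div_mul_cancel₀ _ hM0.ne', hM]; ring
  have hsm : ∀ (r : ℝ), 0 < r → ∀ S : Set (Eu (Fin n)), volume (r⁻¹ • S) =
      ENNReal.ofReal ((r⁻¹) ^ n) * volume S := by
    intro r hr S
    rw [Measure.addHaar_smul, finrank_euclideanSpace_fin, abs_of_pos (by positivity)]
  have hge : ∀ (r : ℝ), 0 < r → ∀ S : Set (Eu (Fin n)), ENNReal.ofReal (r ^ n) ≤ volume S →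
      1 ≤ volume (r⁻¹ • S) := by
    intro r hr S hS
    rw [hsm r hr S]
    calc (1 : ℝ≥0∞) = ENNReal.ofReal ((r⁻¹) ^ n) * ENNReal.ofReal (r ^ n) := by
          rw [← ENNReal.ofReal_mul (by positivity), ← mul_pow, inv_mul_cancel₀ hr.ne', one_pow,
            ENNReal.ofReal_one]
      _ ≤ _ := by gcongr
  have hkey := pl_set t ht0 ht1 (hA.const_smul₀ a⁻¹) (hB.const_smul₀ b⁻¹) (hC.const_smul₀ M⁻¹)
    (by
      rintro _ ⟨x, hx, rfl⟩ _ ⟨y, hy, rfl⟩
      refine ⟨(1 - l) • x + l • y, h x hx y hy, ?_⟩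
      simp only
      rw [smul_add, smul_smul, smul_smul, smul_smul, smul_smul, e1, ht]
      congr 2
      · field_simp
      · field_simp)
  have h1 : (1 : ℝ≥0∞) ≤ volume (M⁻¹ • C) := by
    refine le_trans ?_ hkey
    calc (1 : ℝ≥0∞) = 1 ^ (1 - t) * 1 ^ t := by simp
      _ ≤ _ := by
        gcongr
        · exact hge a ha A hvA
        · exact hge b hb B hvB
  rw [hsm M hM0] at h1
  calc ENNReal.ofReal (M ^ n) = ENNReal.ofReal (M ^ n) * 1 := (mul_one _).symm
    _ ≤ ENNReal.ofReal (M ^ n) * (ENNReal.ofReal ((M⁻¹) ^ n) * volume C) := by gcongr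
    _ = volume C := by
      rw [← mul_assoc, ← ENNReal.ofReal_mul (by positivity), ← mul_pow, mul_inv_cancel₀ hM0.ne',
        one_pow, ENNReal.ofReal_one, one_mul]

/-- the level set of `Φ` in `K` -/
def lev (K : Set (Eu (Fin n))) (Φ : Eu (Fin n) → ℝ) (s : ℝ) : Set (Eu (Fin n)) := {x ∈ K | Φ x ≤ s}

theorem lev_compact {K : Set (Eu (Fin n))} (hK : IsCompact K) {Φ : Eu (Fin n) → ℝ}
    (hΦ : ContinuousOn Φ K) (s : ℝ) : IsCompact (lev K Φ s) := by
  have h1 : lev K Φ s = K ∩ Φ ⁻¹' (Iic s) := rfl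
  rw [h1]
  have h2 : IsClosed (K ∩ Φ ⁻¹' (Iic s)) := hΦ.preimage_isClosed_of_isClosed hK.isClosed isClosed_Iic
  exact hK.of_isClosed_subset h2 inter_subset_left

theorem lev_convex {K : Set (Eu (Fin n))} {Φ : Eu (Fin n) → ℝ} (hΦ : ConvexOn ℝ K Φ) (s : ℝ) :
    Convex ℝ (lev K Φ s) := hΦ.convex_le s

/-- Subsets of a level set of a strongly convex function which are far from each other: one of them
is small. -/
theorem far_sets (hn : 0 < n) {K : Set (Eu (Fin n))} (hK : IsCompact K) {Φ : Eu (Fin n) → ℝ}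
    (hΦc : ContinuousOn Φ K) {k : ℝ} (hk : 0 < k) (hΦ : StrongConvexOn K k Φ) {s s' γ : ℝ}
    (hss : s < s') (hγ : 0 < γ)
    (hgr : ENNReal.ofReal ((1 + γ) ^ n) * volume (lev K Φ s) ≤ volume (lev K Φ s'))
    (hpos : 0 < volume (lev K Φ s)) {A B : Set (Eu (Fin n))} (hA : MeasurableSet A)
    (hB : MeasurableSet B) (hAL : A ⊆ lev K Φ s) (hBL : B ⊆ lev K Φ s) {t : ℝ} (ht : 0 < t)
    (hdist : ∀ x ∈ A, ∀ y ∈ B, t ≤ ‖x - y‖) :
    min (volume A) (volume B) ≤
      ENNReal.ofReal (Real.exp (-(n * (γ * k / (8 * (s' - s))) * t ^ 2))) * volume (lev K Φ s) := by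
  have hcv : ConvexOn ℝ K Φ := hΦ.strictConvexOn hk |>.convexOn
  have hfin : ∀ r, volume (lev K Φ r) ≠ ⊤ := fun r => (lev_compact hK hΦc r).measure_lt_top.ne
  set τ := k * t ^ 2 / 8 with hτ
  have hτ0 : 0 < τ := by positivity
  have h1 : min (volume A) (volume B) ≤ volume (lev K Φ (s - τ)) := by
    refine bm_min hA hB (lev_compact hK hΦc _).measurableSet ?_
    intro x hx y hy
    have hxL := hAL hx
    have hyL := hBL hy
    refine ⟨hcv.1 hxL.1 hyL.1 (by norm_num) (by norm_num) (by norm_num), ?_⟩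
    have h2 := hΦ.2 hxL.1 hyL.1 (by norm_num : (0 : ℝ) ≤ 1 / 2) (by norm_num : (0 : ℝ) ≤ 1 / 2)
      (by norm_num)
    simp only [smul_eq_mul] at h2
    have h3 : t ^ 2 ≤ ‖x - y‖ ^ 2 := pow_le_pow_left₀ ht.le (hdist x hx y hy) 2
    have h4 := hxL.2
    have h5 := hyL.2
    rw [hτ]
    nlinarith
  refine h1.trans ?_
  set h := s' - s with hh
  have hh0 : 0 < h := by rw [hh]; linarith
  -- real numbers
  set ℓ : ℝ := (volume (lev K Φ s)).toReal ^ (1 / n : ℝ) with hℓ
  have hvr : 0 < (volume (lev K Φ s)).toReal := ENNReal.toReal_pos hpos.ne' (hfin s)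
  have hℓ0 : 0 < ℓ := Real.rpow_pos_of_pos hvr _
  have hpow : ∀ r : ℝ, 0 ≤ r → (r ^ (1 / n : ℝ)) ^ n = r := by
    intro r hr
    rw [← Real.rpow_natCast, ← Real.rpow_mul hr]
    have : (1 / (n : ℝ)) * n = 1 := by
      have : (n : ℝ) ≠ 0 := by exact_mod_cast hn.ne'
      field_simp
    rw [this, Real.rpow_one]
  have hℓn : ENNReal.ofReal (ℓ ^ n) = volume (lev K Φ s) := by
    rw [hℓ, hpow _ hvr.le, ENNReal.ofReal_toReal (hfin s)]
  set c : ℝ := (volume (lev K Φ (s - τ))).toReal ^ (1 / n : ℝ) with hc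
  have hcn : ENNReal.ofReal (c ^ n) = volume (lev K Φ (s - τ)) := by
    rw [hc, hpow _ ENNReal.toReal_nonneg, ENNReal.ofReal_toReal (hfin _)]
  have hc0 : 0 ≤ c := Real.rpow_nonneg ENNReal.toReal_nonneg _
  have hcl : c ≤ ℓ * (1 - γ * τ / h) ∨ c = 0 := by
    rcases eq_or_lt_of_le hc0 with h0 | h0
    · exact Or.inr h0.symm
    left
    have hl0 : 0 < τ / (τ + h) := by positivity
    have hl1 : τ / (τ + h) < 1 := by rw [div_lt_one (by positivity)]; linarith
    have h2 := bm_pow (τ / (τ + h)) c ((1 + γ) * ℓ) hl0 hl1 h0 (by positivity)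
      (lev_compact hK hΦc (s - τ)).measurableSet (lev_compact hK hΦc s').measurableSet
      (lev_compact hK hΦc s).measurableSet (by
        intro x hx y hy
        refine ⟨hcv.1 hx.1 hy.1 (by linarith) hl0.le (by ring), ?_⟩
        have h3 := hcv.2 hx.1 hy.1 (by linarith : 0 ≤ 1 - τ / (τ + h)) hl0.le (by ring)
        simp only [smul_eq_mul] at h3
        refine h3.trans ?_
        have h4 : (1 - τ / (τ + h)) * Φ x ≤ (1 - τ / (τ + h)) * (s - τ) :=
          mul_le_mul_of_nonneg_left hx.2 (by linarith)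
        have h5 : τ / (τ + h) * Φ y ≤ τ / (τ + h) * s' := mul_le_mul_of_nonneg_left hy.2 hl0.le
        have h6 : (1 - τ / (τ + h)) * (s - τ) + τ / (τ + h) * s' = s := by
          have : s' = s + h := by rw [hh]; ring
          rw [this]
          field_simp
          ring
        linarith) hcn.le (by
          rw [mul_pow, ENNReal.ofReal_mul (by positivity), hℓn]
          exact hgr)
    rw [← hℓn] at h2
    have h3 := (ENNReal.ofReal_le_ofReal_iff (by positivity)).1 h2
    have h4 : (1 - τ / (τ + h)) * c + τ / (τ + h) * ((1 + γ) * ℓ) ≤ ℓ :=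
      le_of_pow_le_pow_left₀ hn.ne' hℓ0.le h3
    have h5 : 0 < 1 - τ / (τ + h) := by linarith
    have h6 : 1 - τ / (τ + h) = h / (τ + h) := by field_simp; ring
    rw [h6] at h4
    have h7 : 0 < τ + h := by positivity
    have h8 : h * c + τ * ((1 + γ) * ℓ) ≤ ℓ * (τ + h) := by
      have := mul_le_mul_of_nonneg_right h4 h7.le
      have e : (h / (τ + h) * c + τ / (τ + h) * ((1 + γ) * ℓ)) * (τ + h) =
        h * c + τ * ((1 + γ) * ℓ) := by field_simp
      rwa [e] at this
    have h9 : h * c ≤ h * (ℓ * (1 - γ * τ / h)) := by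
      have e : h * (ℓ * (1 - γ * τ / h)) = h * ℓ - γ * τ * ℓ := by field_simp
      rw [e]
      nlinarith
    exact le_of_mul_le_mul_left h9 hh0
  rw [← hcn, ← hℓn, ← ENNReal.ofReal_mul (Real.exp_pos _).le]
  refine ENNReal.ofReal_le_ofReal ?_
  have hexp : Real.exp (-(n * (γ * k / (8 * h)) * t ^ 2)) = Real.exp (-(γ * τ / h)) ^ n := by
    rw [← Real.exp_nat_mul]
    congr 1
    rw [hτ]
    field_simp
  rw [hexp, ← mul_pow]
  refine pow_le_pow_left₀ hc0 ?_ n
  rcases hcl with h2 | h2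
  · refine h2.trans ?_
    have h3 := Real.one_sub_le_exp_neg (γ * τ / h)
    nlinarith
  · rw [h2]
    positivity

end Pool.Agent.T2H47.KL
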