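import Pool.Agent.T2H47.KL.BM
import Pool.Agent.Y506.FF.Stm

/-!
# Concentration on level sets of strongly convex functions
-/

set_option autoImplicit false

namespace Pool.Agent.T2H47.KL

open MeasureTheory Set Filter Topology
open scoped ENNReal InnerProductSpace Pointwise
open Pool.Agent.W695.KH (Eu EV VV)
open Pool.Agent.Y506.FF (LCon)

variable {n : ℕ}

theorem exists_med {X : Type*} [MeasurableSpace X] (μ : Measure X) [IsProbabilityMeasure μ]
    {v : X → ℝ} (hv : Measurable v) (hb : ∀ x, |v x| ≤ 1) :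
    ∃ m : ℝ, |m| ≤ 1 ∧ 1 / 2 ≤ μ {x | v x ≤ m} ∧ 1 / 2 ≤ μ {x | m ≤ v x} := by
  set S : Set ℝ := {r | 1 / 2 ≤ μ {x | v x ≤ r}} with hS
  have h1 : (1 : ℝ) ∈ S := by
    have : {x | v x ≤ 1} = univ := eq_univ_of_forall fun x => (abs_le.1 (hb x)).2
    show 1 / 2 ≤ μ {x | v x ≤ 1}
    rw [this, measure_univ, one_div]
    exact ENNReal.inv_le_one.2 (by norm_num)
  have hlow : ∀ r ∈ S, -1 ≤ r := by
    intro r hr
    by_contra hlt
    rw [not_le] at hlt
    have : {x | v x ≤ r} = ∅ := by
      ext x
      simp only [mem_ofPred_eq, mem_empty_iff_false, iff_false, not_le]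
      linarith [(abs_le.1 (hb x)).1]
    have hr' : 1 / 2 ≤ μ {x | v x ≤ r} := hr
    rw [this, measure_empty] at hr'
    simp at hr'
  have hbdd : BddBelow S := ⟨-1, fun r hr => hlow r hr⟩
  have hmono : ∀ r ∈ S, ∀ r', r ≤ r' → r' ∈ S := fun r hr r' hrr =>
    le_trans (show 1 / 2 ≤ μ {x | v x ≤ r} from hr) (measure_mono fun x hx => le_trans hx hrr)
  set m := sInf S with hm
  refine ⟨m, abs_le.2 ⟨le_csInf ⟨1, h1⟩ hlow, csInf_le hbdd h1⟩, ?_, ?_⟩
  · have h2 : {x | v x ≤ m} = ⋂ k : ℕ, {x | v x ≤ m + 1 / ((k : ℝ) + 1)} := by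
      ext x
      simp only [mem_ofPred_eq, mem_iInter]
      constructor
      · intro hx k
        have : 0 < 1 / ((k : ℝ) + 1) := by positivity
        linarith
      · intro hx
        refine le_of_forall_pos_le_add fun ε hε => ?_
        obtain ⟨k, hk⟩ := exists_nat_one_div_lt hε
        exact (hx k).trans (by linarith)
    rw [h2]
    have h3 : Antitone fun k : ℕ => {x | v x ≤ m + 1 / ((k : ℝ) + 1)} := by
      intro i j hij x hx
      have : 1 / ((j : ℝ) + 1) ≤ 1 / ((i : ℝ) + 1) := by
        apply one_div_le_one_div_of_le (by positivity)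
        have : (i : ℝ) ≤ j := by exact_mod_cast hij
        linarith
      exact le_trans (show v x ≤ m + 1 / ((j : ℝ) + 1) from hx) (by linarith)
    rw [h3.measure_iInter (fun k => (measurableSet_le hv measurable_const).nullMeasurableSet)
      ⟨0, measure_ne_top _ _⟩]
    refine le_iInf fun k => ?_
    have : 0 < 1 / ((k : ℝ) + 1) := by positivity
    obtain ⟨r, hr, hrm⟩ := exists_lt_of_csInf_lt ⟨1, h1⟩ (show sInf S < m + 1 / ((k : ℝ) + 1) by
      rw [← hm]; linarith)
    exact hmono r hr _ hrm.le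
  · have h2 : {x | v x < m} = ⋃ k : ℕ, {x | v x ≤ m - 1 / ((k : ℝ) + 1)} := by
      ext x
      simp only [mem_ofPred_eq, mem_iUnion]
      constructor
      · intro hx
        obtain ⟨k, hk⟩ := exists_nat_one_div_lt (show 0 < m - v x by linarith)
        exact ⟨k, by linarith⟩
      · rintro ⟨k, hk⟩
        have : 0 < 1 / ((k : ℝ) + 1) := by positivity
        linarith
    have h3 : Monotone fun k : ℕ => {x | v x ≤ m - 1 / ((k : ℝ) + 1)} := by
      intro i j hij x hx
      have : 1 / ((j : ℝ) + 1) ≤ 1 / ((i : ℝ) + 1) := by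
        apply one_div_le_one_div_of_le (by positivity)
        have : (i : ℝ) ≤ j := by exact_mod_cast hij
        linarith
      exact le_trans (show v x ≤ m - 1 / ((i : ℝ) + 1) from hx) (by linarith)
    have h4 : μ {x | v x < m} ≤ 1 / 2 := by
      rw [h2, h3.measure_iUnion]
      refine iSup_le fun k => ?_
      by_contra hlt
      rw [not_le] at hlt
      have h5 : m - 1 / ((k : ℝ) + 1) ∈ S := hlt.le
      have h6 := csInf_le hbdd h5
      have : 0 < 1 / ((k : ℝ) + 1) := by positivity
      linarith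
    have h5 : {x | m ≤ v x} = {x | v x < m}ᶜ := by
      ext x
      simp
    rw [h5, prob_compl_eq_one_sub (measurableSet_lt hv measurable_const)]
    calc (1 / 2 : ℝ≥0∞) = 1 - 1 / 2 := by
          rw [one_div, ENNReal.one_sub_inv_two]
      _ ≤ _ := tsub_le_tsub_left h4 1

theorem lcon_lev (hn : 0 < n) {K : Set (Eu (Fin n))} (hK : IsCompact K) {Φ : Eu (Fin n) → ℝ}
    (hΦc : ContinuousOn Φ K) {k : ℝ} (hk : 0 < k) (hΦ : StrongConvexOn K k Φ) {s s' γ : ℝ}
    (hss : s < s') (hγ : 0 < γ)
    (hgr : ENNReal.ofReal ((1 + γ) ^ n) * volume (lev K Φ s) ≤ volume (lev K Φ s'))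
    (hpos : 0 < volume (lev K Φ s)) :
    LCon (lev K Φ s) (Real.sqrt (n * (γ * k / (8 * (s' - s)))) / 30) (1 / 25) := by
  intro v hv hv1 hvl
  set L := lev K Φ s with hL
  have hLc : IsCompact L := lev_compact hK hΦc s
  have hLm : MeasurableSet L := hLc.measurableSet
  have hfin : volume L ≠ ⊤ := hLc.measure_lt_top.ne
  set G : ℝ := n * (γ * k / (8 * (s' - s))) with hG
  have hG0 : 0 < G := by
    have : 0 < s' - s := by linarith
    have : (0 : ℝ) < n := by exact_mod_cast hn
    positivity
  set l : ℝ := Real.sqrt G / 30 with hl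
  have hl0 : 0 < l := by positivity
  have hvc : Continuous v := hv.continuous
  have hvm : Measurable v := hvc.measurable
  have hlip : ∀ x y, |v x - v y| ≤ l * ‖x - y‖ := by
    intro x y
    rw [← Real.norm_eq_abs]
    exact Convex.norm_image_sub_le_of_norm_fderiv_le (fun z _ => (hv.differentiable one_ne_zero) z)
      (fun z _ => hvl z) convex_univ (mem_univ y) (mem_univ x)
  set μ : Measure (Eu (Fin n)) := (volume L)⁻¹ • volume.restrict L with hμ
  have hμp : IsProbabilityMeasure μ := ⟨by
    rw [hμ, Measure.smul_apply, Measure.restrict_apply_univ, smul_eq_mul,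
      ENNReal.inv_mul_cancel hpos.ne' hfin]⟩
  have hμS : ∀ S, MeasurableSet S → volume (S ∩ L) = volume L * μ S := by
    intro S hS
    rw [hμ, Measure.smul_apply, Measure.restrict_apply hS, smul_eq_mul, ← mul_assoc,
      ENNReal.mul_inv_cancel hpos.ne' hfin, one_mul]
  obtain ⟨m, hm1, hmA, hmB⟩ := exists_med μ hvm hv1
  have hexp : Real.exp (-9) < 1 / 2 := by
    have : Real.exp (-9) ≤ Real.exp (-1) := Real.exp_le_exp.2 (by norm_num)
    have h2 : Real.exp (-1) < 1 / 2 := by
      rw [Real.exp_neg, inv_lt_comm₀ (Real.exp_pos _) (by norm_num)]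
      have := Real.exp_one_gt_d9
      norm_num
      linarith
    linarith
  -- the basic estimate
  have key : ∀ A B : Set (Eu (Fin n)), MeasurableSet A → MeasurableSet B → 1 / 2 ≤ μ A →
      (∀ x ∈ A, ∀ y ∈ B, 1 / 10 ≤ |v x - v y|) →
      volume (B ∩ L) ≤ ENNReal.ofReal (Real.exp (-9)) * volume L := by
    intro A B hA hB hA2 hAB
    have h1 := far_sets hn hK hΦc hk hΦ hss hγ hgr hpos (A := A ∩ L) (B := B ∩ L)
      (hA.inter hLm) (hB.inter hLm) inter_subset_right inter_subset_right
      (t := 1 / 10 / l) (by positivity) (by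
        intro x hx y hy
        rw [div_le_iff₀ hl0, mul_comm]
        exact (hAB x hx.1 y hy.1).trans (hlip x y))
    have h2 : -(n * (γ * k / (8 * (s' - s))) * (1 / 10 / l) ^ 2) = -9 := by
      rw [← hG, hl]
      have h3 : Real.sqrt G ^ 2 = G := Real.sq_sqrt hG0.le
      field_simp
      rw [h3]
      ring
    rw [h2, ← hL] at h1
    rcases min_le_iff.1 h1 with h3 | h3
    · exfalso
      have h4 : volume L * (1 / 2) ≤ volume (A ∩ L) := by
        rw [hμS A hA]; gcongr
      have h5 : volume L * (1 / 2) ≤ ENNReal.ofReal (Real.exp (-9)) * volume L := h4.trans h3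
      rw [mul_comm, ENNReal.mul_le_mul_iff_left hpos.ne' hfin] at h5
      have h6 : (1 / 2 : ℝ≥0∞) = ENNReal.ofReal (1 / 2) := by
        rw [ENNReal.ofReal_div_of_pos (by norm_num)]
        norm_num
      rw [h6] at h5
      have h7 := (ENNReal.ofReal_le_ofReal_iff (Real.exp_pos _).le).1 h5
      linarith
    · exact h3
  set B1 : Set (Eu (Fin n)) := {x | m + 1 / 10 ≤ v x} with hB1
  set B2 : Set (Eu (Fin n)) := {x | v x ≤ m - 1 / 10} with hB2
  have hB1m : MeasurableSet B1 := measurableSet_le measurable_const hvm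
  have hB2m : MeasurableSet B2 := measurableSet_le hvm measurable_const
  have k1 := key {x | v x ≤ m} B1 (measurableSet_le hvm measurable_const) hB1m hmA (by
    intro x hx y hy
    have hx' : v x ≤ m := hx
    have hy' : m + 1 / 10 ≤ v y := hy
    rw [abs_sub_comm]
    exact le_trans (by linarith) (le_abs_self _))
  have k2 := key {x | m ≤ v x} B2 (measurableSet_le measurable_const hvm) hB2m hmB (by
    intro x hx y hy
    have hx' : m ≤ v x := hx
    have hy' : v y ≤ m - 1 / 10 := hy
    exact le_trans (by linarith) (le_abs_self _))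
  -- integrate
  have hV : 0 < (volume L).toReal := ENNReal.toReal_pos hpos.ne' hfin
  have hint : ∀ g : Eu (Fin n) → ℝ, Continuous g → IntegrableOn g L := fun g hg =>
    hg.continuousOn.integrableOn_compact hLc
  have hreal : ∀ B : Set (Eu (Fin n)), volume (B ∩ L) ≤ ENNReal.ofReal (Real.exp (-9)) * volume L →
      (volume (B ∩ L)).toReal ≤ Real.exp (-9) * (volume L).toReal := by
    intro B hB
    have := ENNReal.toReal_mono (ENNReal.mul_ne_top ENNReal.ofReal_ne_top hfin) hB
    rwa [ENNReal.toReal_mul, ENNReal.toReal_ofReal (Real.exp_pos _).le] at this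
  have hI : ∫ x in L, (v x - m) ^ 2 ≤ (1 / 100 + 8 * Real.exp (-9)) * (volume L).toReal := by
    have hm2 := abs_le.1 hm1
    have h1 : ∀ x, (v x - m) ^ 2 ≤ 1 / 100 + (B1.indicator (fun _ => (4 : ℝ)) x +
        B2.indicator (fun _ => (4 : ℝ)) x) := by
      intro x
      have hvx := abs_le.1 (hv1 x)
      have hn1 : 0 ≤ B1.indicator (fun _ => (4 : ℝ)) x := indicator_nonneg (fun _ _ => by norm_num) x
      have hn2 : 0 ≤ B2.indicator (fun _ => (4 : ℝ)) x := indicator_nonneg (fun _ _ => by norm_num) x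
      by_cases hx1 : x ∈ B1
      · rw [indicator_of_mem hx1] at hn1 ⊢
        nlinarith
      · by_cases hx2 : x ∈ B2
        · rw [indicator_of_mem hx2] at hn2 ⊢
          nlinarith
        · have e1 : v x < m + 1 / 10 := not_le.1 hx1
          have e2 : m - 1 / 10 < v x := not_le.1 hx2
          nlinarith
    have hi1 : IntegrableOn (B1.indicator fun _ => (4 : ℝ)) L :=
      (integrableOn_const (C := (4 : ℝ)) hfin).indicator hB1m
    have hi2 : IntegrableOn (B2.indicator fun _ => (4 : ℝ)) L :=
      (integrableOn_const (C := (4 : ℝ)) hfin).indicator hB2m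
    have hi0 : IntegrableOn (fun _ : Eu (Fin n) => (1 / 100 : ℝ)) L := integrableOn_const hfin
    have hi12 : IntegrableOn (fun x => B1.indicator (fun _ => (4 : ℝ)) x +
        B2.indicator (fun _ => (4 : ℝ)) x) L := hi1.add hi2
    calc ∫ x in L, (v x - m) ^ 2 ≤ ∫ x in L, (1 / 100 + (B1.indicator (fun _ => (4 : ℝ)) x +
          B2.indicator (fun _ => (4 : ℝ)) x)) :=
          setIntegral_mono (hint _ (by fun_prop)) (hi0.add hi12) h1
      _ = 1 / 100 * (volume L).toReal + (4 * (volume (B1 ∩ L)).toReal +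
          4 * (volume (B2 ∩ L)).toReal) := by
          rw [integral_add hi0 hi12, integral_add hi1 hi2, setIntegral_const,
            setIntegral_indicator hB1m, setIntegral_indicator hB2m, setIntegral_const,
            setIntegral_const, inter_comm B1, inter_comm B2]
          simp only [Measure.real, smul_eq_mul]
          ring
      _ ≤ _ := by
          have e1 := hreal B1 k1
          have e2 := hreal B2 k2
          nlinarith
  have h3 : VV L v ≤ (∫ x in L, (v x - m) ^ 2) / (volume L).toReal := by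
    unfold VV EV
    have e1 : ∫ x in L, (v x - m) ^ 2 = (∫ x in L, v x ^ 2) - 2 * m * (∫ x in L, v x) +
        m ^ 2 * (volume L).toReal := by
      have e0 : (fun x => (v x - m) ^ 2) = fun x => (v x ^ 2 - 2 * m * v x) + m ^ 2 := by
        funext x; ring
      have j1 : IntegrableOn (fun x => v x ^ 2) L := hint _ (by fun_prop)
      have j2 : IntegrableOn (fun x => 2 * m * v x) L := hint _ (by fun_prop)
      have j3 : IntegrableOn (fun x => v x ^ 2 - 2 * m * v x) L := hint _ (by fun_prop)
      have j4 : IntegrableOn (fun _ : Eu (Fin n) => m ^ 2) L := integrableOn_const hfin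
      rw [e0, integral_add j3 j4, integral_sub j1 j2, setIntegral_const, integral_const_mul]
      simp only [Measure.real, smul_eq_mul]
      ring
    rw [e1]
    have e2 : ((∫ x in L, v x ^ 2) - 2 * m * (∫ x in L, v x) + m ^ 2 * (volume L).toReal) /
        (volume L).toReal = (∫ x in L, v x ^ 2) / (volume L).toReal -
        2 * m * ((∫ x in L, v x) / (volume L).toReal) + m ^ 2 := by
      field_simp
    rw [e2]
    nlinarith [sq_nonneg ((∫ x in L, v x) / (volume L).toReal - m)]
  refine h3.trans ?_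
  rw [div_le_iff₀ hV]
  refine hI.trans ?_
  have h9 : Real.exp (-9) ≤ 1 / 512 := by
    have : Real.exp (-9) = Real.exp (-1) ^ 9 := by
      rw [← Real.exp_nat_mul]; norm_num
    rw [this]
    have h2 : Real.exp (-1) ≤ 1 / 2 := by
      rw [Real.exp_neg, inv_le_comm₀ (Real.exp_pos _) (by norm_num)]
      have := Real.exp_one_gt_d9
      norm_num
      linarith
    calc Real.exp (-1) ^ 9 ≤ (1 / 2) ^ 9 := pow_le_pow_left₀ (Real.exp_pos _).le h2 9
      _ = 1 / 512 := by norm_num
  nlinarith

end Pool.Agent.T2H47.KL
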