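import Pool.Agent.T2H47.KL.Conc
import Pool.Agent.Y445.FF.Mila
import Pool.Agent.Y665.FF.Milb
import Pool.Agent.Y211.FF.Half
import Pool.Agent.Y429.RG.MINKM

/-!
# The inequality of Kannan, Lovasz and Simonovits for level sets of strongly convex functions
-/

set_option autoImplicit false

namespace Pool.Agent.T2H47.KL

open MeasureTheory Set Filter Topology
open scoped ENNReal InnerProductSpace Pointwise
open Pool.Agent.W695.KH (Eu EV VV Sm)
open Pool.Agent.Y506.FF (LCon)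

variable {n : ℕ}

/-- the second moment about any point is large if the volume is large -/
theorem second_moment (hn : 0 < n) {L : Set (Eu (Fin n))} (hL : IsCompact L)
    (hpos : 0 < volume L) {r : ℝ} (hr : 0 < r)
    (hvol : volume (Metric.ball (0 : Eu (Fin n)) r) ≤ volume L)
    (μ : Measure (Eu (Fin n))) (hμ : μ = (volume L)⁻¹ • volume.restrict L) (m : Eu (Fin n)) :
    ENNReal.ofReal (r ^ 2 / 8) ≤ ∫⁻ x, ENNReal.ofReal (‖x - m‖ ^ 2) ∂μ := by
  have hfin : volume L ≠ ⊤ := hL.measure_lt_top.ne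
  have : Nonempty (Fin n) := ⟨⟨0, hn⟩⟩
  have : Nontrivial (Eu (Fin n)) := by
    refine ⟨⟨0, EuclideanSpace.single ⟨0, hn⟩ 1, fun h => ?_⟩⟩
    have := congrArg norm h
    simp at this
  have hμp : IsProbabilityMeasure μ := ⟨by
    rw [hμ, Measure.smul_apply, Measure.restrict_apply_univ, smul_eq_mul,
      ENNReal.inv_mul_cancel hpos.ne' hfin]⟩
  set S : Set (Eu (Fin n)) := Metric.ball m (r / 2) with hS
  have hSm : MeasurableSet S := Metric.isOpen_ball.measurableSet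
  have h1 : μ S ≤ 1 / 2 := by
    rw [hμ, Measure.smul_apply, Measure.restrict_apply hSm, smul_eq_mul]
    have h2 : volume (S ∩ L) ≤ (1 / 2) * volume L := by
      refine (measure_mono inter_subset_left).trans ?_
      rw [hS, Measure.addHaar_ball _ _ (by positivity : (0 : ℝ) ≤ r / 2)]
      rw [Measure.addHaar_ball _ _ hr.le] at hvol
      refine le_trans ?_ (mul_le_mul_right hvol (1 / 2))
      rw [← mul_assoc]
      gcongr
      rw [finrank_euclideanSpace_fin]
      have e : (1 / 2 : ℝ≥0∞) = ENNReal.ofReal (1 / 2) := by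
        rw [ENNReal.ofReal_div_of_pos (by norm_num)]
        norm_num
      rw [e, ← ENNReal.ofReal_mul (by norm_num)]
      refine ENNReal.ofReal_le_ofReal ?_
      rw [div_pow, div_eq_mul_inv, mul_comm]
      refine mul_le_mul_of_nonneg_right ?_ (by positivity)
      rw [one_div]
      apply inv_anti₀ (by norm_num)
      calc (2 : ℝ) = 2 ^ 1 := by norm_num
        _ ≤ 2 ^ n := pow_le_pow_right₀ (by norm_num) hn
    calc (volume L)⁻¹ * volume (S ∩ L) ≤ (volume L)⁻¹ * ((1 / 2) * volume L) := by gcongr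
      _ = (1 / 2) * ((volume L)⁻¹ * volume L) := by ring
      _ = 1 / 2 := by rw [ENNReal.inv_mul_cancel hpos.ne' hfin, mul_one]
  have h2 : 1 / 2 ≤ μ Sᶜ := by
    rw [prob_compl_eq_one_sub hSm]
    calc (1 / 2 : ℝ≥0∞) = 1 - 1 / 2 := by rw [one_div, ENNReal.one_sub_inv_two]
      _ ≤ _ := tsub_le_tsub_left h1 1
  calc ENNReal.ofReal (r ^ 2 / 8) = ENNReal.ofReal (r ^ 2 / 4) * (1 / 2) := by
        have e : (1 / 2 : ℝ≥0∞) = ENNReal.ofReal (1 / 2) := by
          rw [ENNReal.ofReal_div_of_pos (by norm_num)]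
          norm_num
        rw [e, ← ENNReal.ofReal_mul (by positivity)]
        congr 1
        ring
    _ ≤ ENNReal.ofReal (r ^ 2 / 4) * μ Sᶜ := by gcongr
    _ = ∫⁻ _ in Sᶜ, ENNReal.ofReal (r ^ 2 / 4) ∂μ := by rw [setLIntegral_const]
    _ ≤ ∫⁻ x in Sᶜ, ENNReal.ofReal (‖x - m‖ ^ 2) ∂μ := by
        refine setLIntegral_mono' hSm.compl fun x hx => ?_
        refine ENNReal.ofReal_le_ofReal ?_
        have h3 : r / 2 ≤ ‖x - m‖ := by
          have : ¬ dist x m < r / 2 := hx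
          rw [not_lt, dist_eq_norm] at this
          exact this
        calc r ^ 2 / 4 = (r / 2) ^ 2 := by ring
          _ ≤ _ := pow_le_pow_left₀ (by positivity) h3 2
    _ ≤ _ := setLIntegral_le_lintegral _ _

/-- halfspace bounds and volume -/
theorem half_vol : ∃ C : ℝ, 0 < C ∧ ∀ (n : ℕ), 0 < n → ∀ L : Set (Eu (Fin n)), IsCompact L →
    Convex ℝ L → (interior L).Nonempty → ∀ r : ℝ, 0 < r →
    volume (Metric.ball (0 : Eu (Fin n)) r) ≤ volume L →
    ∀ μ : Measure (Eu (Fin n)), μ = (volume L)⁻¹ • volume.restrict L → ∀ t : ℝ≥0∞,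
    (∀ (u : Eu (Fin n)) (b : ℝ), u ≠ 0 →
      t * min (μ {x | ⟪u, x⟫_ℝ ≤ b}) (1 - μ {x | ⟪u, x⟫_ℝ ≤ b}) ≤
        liminf (fun ε : ℝ => (μ (Metric.thickening ε {x | ⟪u, x⟫_ℝ ≤ b}) -
          μ {x | ⟪u, x⟫_ℝ ≤ b}) / ENNReal.ofReal ε) (𝓝[>] 0)) →
    t ≤ ENNReal.ofReal (C * Real.sqrt n / r) := by
  obtain ⟨C, hC, HH⟩ := Pool.Agent.Y211.FF.half
  refine ⟨Real.sqrt (8 * C), by positivity, ?_⟩
  intro n hn L hL hcv hint r hr hvol μ hμ t ht
  have hpos : 0 < volume L :=
    lt_of_lt_of_le (isOpen_interior.measure_pos volume hint) (measure_mono interior_subset)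
  have h1 : ∀ i : Fin n, ∃ m : ℝ, t ^ 2 * ∫⁻ x, ENNReal.ofReal
      ((⟪EuclideanSpace.single i (1 : ℝ), x⟫_ℝ - m) ^ 2) ∂μ ≤ ENNReal.ofReal C := by
    intro i
    have hn1 : ‖(EuclideanSpace.single i (1 : ℝ) : Eu (Fin n))‖ = 1 := by simp
    exact HH (Fin n) L hL hcv hint μ hμ _ t hn1 fun b => ht _ b (by
      intro h0
      rw [h0, norm_zero] at hn1
      exact zero_ne_one hn1)
  choose m hm using h1
  set M : Eu (Fin n) := WithLp.toLp 2 m with hM
  have h2 : ∀ x : Eu (Fin n), ENNReal.ofReal (‖x - M‖ ^ 2) =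
      ∑ i, ENNReal.ofReal ((⟪EuclideanSpace.single i (1 : ℝ), x⟫_ℝ - m i) ^ 2) := by
    intro x
    rw [← ENNReal.ofReal_sum_of_nonneg (fun i _ => sq_nonneg _), EuclideanSpace.norm_sq_eq]
    congr 1
    refine Finset.sum_congr rfl fun i _ => ?_
    rw [EuclideanSpace.inner_single_left, Real.norm_eq_abs, sq_abs]
    simp [hM]
  have h3 : t ^ 2 * ∫⁻ x, ENNReal.ofReal (‖x - M‖ ^ 2) ∂μ ≤ ENNReal.ofReal (n * C) := by
    simp only [h2]
    rw [lintegral_finsetSum _ (fun i _ => by fun_prop), Finset.mul_sum]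
    refine (Finset.sum_le_sum fun i _ => hm i).trans ?_
    rw [Finset.sum_const, Finset.card_univ, Fintype.card_fin, nsmul_eq_mul,
      ENNReal.ofReal_mul (by positivity), ENNReal.ofReal_natCast]
  have h4 : t ^ 2 * ENNReal.ofReal (r ^ 2 / 8) ≤ ENNReal.ofReal (n * C) :=
    le_trans (by gcongr; exact second_moment hn hL hpos hr hvol μ hμ M) h3
  have h5 : t ^ 2 ≤ ENNReal.ofReal (Real.sqrt (8 * C) * Real.sqrt n / r) ^ 2 := by
    rw [← ENNReal.ofReal_pow (by positivity), div_pow, mul_pow, Real.sq_sqrt (by positivity),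
      Real.sq_sqrt (by positivity)]
    have e1 : 8 * C * n / r ^ 2 = (n * C) * (8 / r ^ 2) := by ring
    rw [e1, ENNReal.ofReal_mul (by positivity)]
    calc t ^ 2 = t ^ 2 * ENNReal.ofReal (r ^ 2 / 8) * ENNReal.ofReal (8 / r ^ 2) := by
          rw [mul_assoc, ← ENNReal.ofReal_mul (by positivity)]
          have : r ^ 2 / 8 * (8 / r ^ 2) = 1 := by field_simp
          rw [this, ENNReal.ofReal_one, mul_one]
      _ ≤ _ := by gcongr
  exact (ENNReal.pow_le_pow_left_iff two_ne_zero).1 h5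

/-- **Main theorem.** -/
theorem kls_lev : ∃ c : ℝ, 0 < c ∧ ∀ (n : ℕ), 0 < n → ∀ (K : Set (Eu (Fin n))), IsCompact K →
    ∀ Φ : Eu (Fin n) → ℝ, ContinuousOn Φ K → ∀ k : ℝ, 0 < k → StrongConvexOn K k Φ →
    ∀ s s' γ r : ℝ, s < s' → 0 < γ → 0 < r →
    ENNReal.ofReal ((1 + γ) ^ n) * volume (lev K Φ s) ≤ volume (lev K Φ s') →
    volume (Metric.ball (0 : Eu (Fin n)) r) ≤ volume (lev K Φ s) →
    (interior (lev K Φ s)).Nonempty →
    ∀ μ : Measure (Eu (Fin n)), μ = (volume (lev K Φ s))⁻¹ • volume.restrict (lev K Φ s) →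
    ∀ t : ℝ≥0∞,
    (∀ (u : Eu (Fin n)) (b : ℝ), u ≠ 0 →
      t * min (μ {x | ⟪u, x⟫_ℝ ≤ b}) (1 - μ {x | ⟪u, x⟫_ℝ ≤ b}) ≤
        liminf (fun ε : ℝ => (μ (Metric.thickening ε {x | ⟪u, x⟫_ℝ ≤ b}) -
          μ {x | ⟪u, x⟫_ℝ ≤ b}) / ENNReal.ofReal ε) (𝓝[>] 0)) →
    ∀ S : Set (Eu (Fin n)), μ S = 1 / 2 →
      ENNReal.ofReal (c * (r * Real.sqrt (k * γ / (s' - s)))) * t ≤
        liminf (fun ε : ℝ => (μ (Metric.thickening ε S) - μ S) / ENNReal.ofReal ε) (𝓝[>] 0) := by
  obtain ⟨C, hC, HC⟩ := half_vol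
  refine ⟨1 / (240 * Real.sqrt 8 * C), by positivity, ?_⟩
  intro n hn K hK Φ hΦc k hk hΦ s s' γ r hss hγ hr hgr hvol hint μ hμ t ht S hS
  have hpos : 0 < volume (lev K Φ s) :=
    lt_of_lt_of_le (isOpen_interior.measure_pos volume hint) (measure_mono interior_subset)
  have hLc := lev_compact hK hΦc s
  have hcvΦ : ConvexOn ℝ K Φ := hΦ.strictConvexOn hk |>.convexOn
  have hLv := lev_convex hcvΦ s
  have hfin : volume (lev K Φ s) ≠ ⊤ := hLc.measure_lt_top.ne
  have hμp : IsProbabilityMeasure μ := ⟨by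
    rw [hμ, Measure.smul_apply, Measure.restrict_apply_univ, smul_eq_mul,
      ENNReal.inv_mul_cancel hpos.ne' hfin]⟩
  have hss' : 0 < s' - s := by linarith
  have hnr : (0 : ℝ) < n := by exact_mod_cast hn
  have htb := HC n hn _ hLc hLv hint r hr hvol μ hμ t ht
  set l : ℝ := Real.sqrt (n * (γ * k / (8 * (s' - s)))) / 30 with hl
  have hl0 : 0 < l := by positivity
  have hlc := lcon_lev hn hK hΦc hk hΦ hss hγ hgr hpos
  rw [← hl] at hlc
  have hEV : ∀ g : Eu (Fin n) → ℝ, ∫ x, g x ∂μ = EV (lev K Φ s) g := by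
    intro g
    rw [hμ, integral_smul_measure]
    unfold EV
    rw [ENNReal.toReal_inv, smul_eq_mul, inv_mul_eq_div]
  have key := Pool.Agent.Y429.RG.minkm (Fin n) μ (2 / l) (by positivity) (fun f L' M' hf hfb hf5 => by
    rw [hEV, hEV] at hf5 ⊢
    rw [hEV]
    exact Pool.Agent.Y665.FF.milb Pool.Agent.Y445.FF.mila' (Fin n) (lev K Φ s) hLc hLv hpos
      (1 / 25) l (by norm_num) hl0 hlc f L' M' hf hfb (by
        unfold VV
        linarith)) S hS
  obtain ⟨I, hI⟩ : ∃ I : ℝ≥0∞, I = liminf (fun ε : ℝ => (μ (Metric.thickening ε S) - μ S) /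
    ENNReal.ofReal ε) (𝓝[>] 0) := ⟨_, rfl⟩
  rw [← hI] at key ⊢
  rw [hS] at key
  have h1 : (1 / 2 : ℝ≥0∞) * (1 - 1 / 2) = ENNReal.ofReal (1 / 4) := by
    have h2 : (1 / 2 : ℝ≥0∞) = ENNReal.ofReal (1 / 2) := by
      rw [ENNReal.ofReal_div_of_pos (by norm_num)]
      norm_num
    rw [h2, ← ENNReal.ofReal_one, ← ENNReal.ofReal_sub _ (by norm_num),
      ← ENNReal.ofReal_mul (by norm_num)]
    norm_num
  rw [h1] at key
  have h2 : ENNReal.ofReal (l / 8) ≤ I := by
    calc ENNReal.ofReal (l / 8) = ENNReal.ofReal (l / 2) * ENNReal.ofReal (1 / 4) := by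
          rw [← ENNReal.ofReal_mul (by positivity)]
          congr 1
          ring
      _ ≤ ENNReal.ofReal (l / 2) * (ENNReal.ofReal (2 / l) * I) := by gcongr
      _ = I := by
          rw [← mul_assoc, ← ENNReal.ofReal_mul (by positivity)]
          have : l / 2 * (2 / l) = 1 := by field_simp
          rw [this, ENNReal.ofReal_one, one_mul]
  refine le_trans ?_ h2
  calc ENNReal.ofReal (1 / (240 * Real.sqrt 8 * C) * (r * Real.sqrt (k * γ / (s' - s)))) * t ≤
        ENNReal.ofReal (1 / (240 * Real.sqrt 8 * C) * (r * Real.sqrt (k * γ / (s' - s)))) *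
        ENNReal.ofReal (C * Real.sqrt n / r) := by gcongr
    _ = ENNReal.ofReal (l / 8) := by
        rw [← ENNReal.ofReal_mul (by positivity)]
        congr 1
        have e1 : Real.sqrt (n * (γ * k / (8 * (s' - s)))) =
            Real.sqrt n * Real.sqrt (k * γ / (s' - s)) / Real.sqrt 8 := by
          rw [← Real.sqrt_mul (by positivity), ← Real.sqrt_div (by positivity)]
          congr 1
          field_simp
        rw [hl, e1]
        have h8 : Real.sqrt 8 ≠ 0 := by positivity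
        field_simp
        ring

end Pool.Agent.T2H47.KL
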